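import Pool.Agent.K7.H49.PR.Cho

/-!
# The Liouville function at the values of arbitrary polynomials times linear factors, the constant terms of which are
given modulo primes by bilinear forms on arbitrary sets of residues

The passage from one linear factor to tuples and the estimate for families of nearly minimal additive energy are from
the library (`Pool.Agent.R501.CP4`). From Mathlib: `ArithmeticFunction.cardFactors m`: the number of prime factors of
`m` with multiplicity; `Finset.Icc u v`: the integers `n` with `u ≤ n ≤ v`; `n ≡ r [ZMOD q]`: congruence modulo `q`;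
`Polynomial ℤ`: the polynomials with integer coefficients; `ZMod p`: the residues modulo `p`; `z.val`: the
representative of `z` in `{0, ..., p - 1}`.
-/

set_option autoImplicit false

namespace Pool.Agent.Results.MP_892e4c_nt.BilinearConstants

open Finset

/-- The Liouville function on the integers, `λ(-m) = λ(m)` and `λ(0) = 0`. -/
def lam (m : ℤ) : ℤ := if m = 0 then 0 else (-1) ^ ArithmeticFunction.cardFactors m.natAbs

/-- The sum of `λ(F(n))` over the integers `n` with `u ≤ n ≤ v` and `n ≡ r mod q`, where `F` is the product of the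
polynomial `f` and of the polynomials `α i T + a i`, `i ∈ I`. -/
noncomputable def lamSum {s : ℕ} (f : Polynomial ℤ) (α : Fin s → ℕ) (a : Fin s → ℤ) (I : Finset (Fin s)) (q : ℕ)
    (r u v : ℤ) : ℤ :=
  ∑ n ∈ (Icc u v).filter (fun n => n ≡ r [ZMOD q]),
    lam ((f * ∏ i ∈ I, (Polynomial.C (α i : ℤ) * Polynomial.X + Polynomial.C (a i))).eval n)

/-- All the sums are small: for all `l`, all nonempty sets `I` of indices, all residue classes `r` modulo
`q ≤ log ^ κ N` and all integers `u`, `v` with `α i |u| ≤ B N` and `α i |v| ≤ B N` for all `i ∈ I`, the sum of `λ(F(n))`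
over the `n` with `u ≤ n ≤ v` and `n ≡ r mod q` is at most `N / log ^ U N` in absolute value, where
`F = f l * ∏ i ∈ I, (α i T + a i)`. -/
def Small (B κ U N : ℕ) {s L : ℕ} (f : Fin L → Polynomial ℤ) (α : Fin s → ℕ) (a : Fin s → ℤ) : Prop :=
  ∀ l, ∀ I : Finset (Fin s), I.Nonempty → ∀ q : ℕ, 1 ≤ q → (q : ℝ) ≤ Real.log N ^ κ → ∀ r u v : ℤ,
    (∀ i ∈ I, (α i : ℤ) * |u| ≤ B * N ∧ (α i : ℤ) * |v| ≤ B * N) →
    |((lamSum (f l) α a I q r u v : ℤ) : ℝ)| ≤ N / Real.log N ^ U

open Classical in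
/-- The number of the vectors of pairs `(u i, v i)`, `u i ∈ R i`, `v i ∈ S i`, for which `Small` fails for the constant
terms `a i = c i + γ i * r i`, where `r i` is the residue of `u i * v i + ρ i (u i) + σ i (v i)` modulo `p i` in
`{0, ..., p i - 1}`. -/
noncomputable def exceptions (B κ U N : ℕ) {s L : ℕ} (p : Fin s → ℕ) (R S : ∀ i, Finset (ZMod (p i)))
    (ρ σ : ∀ i, ZMod (p i) → ZMod (p i)) (f : Fin L → Polynomial ℤ) (α : Fin s → ℕ) (c γ : Fin s → ℤ) : ℕ :=
  ((Fintype.piFinset fun i => R i ×ˢ S i).filter fun w =>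
    ¬ Small B κ U N f α
      (fun i => c i + γ i * (((w i).1 * (w i).2 + ρ i (w i).1 + σ i (w i).2).val : ℕ))).card

/-- Let `B`, `C`, `κ`, `U` be natural numbers and `δ > 0`. The following holds for every sufficiently large `N`. Let
`2 ^ s ≤ log ^ κ N`. For `i < s` let `p i` be a prime with `p i ≥ N / (log N) ^ C`, let `R i`, `S i` be ANY sets of
residues modulo `p i` with `|R i| |S i| ≥ (p i) ^ (1 + δ)`, let `ρ i`, `σ i` be ANY functions on the residues modulo
`p i`, and let `γ i ≠ 0`, `c i` be integers with `|c i| + |γ i| p i ≤ B N`. Let `α i ≥ 1` be arbitrary integers, and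
let `f l`, where `l` ranges over at most `log ^ κ N` indices, be arbitrary polynomials with integer coefficients (of
any degree). Then all the vectors of pairs `(u i, v i)`, `u i ∈ R i`, `v i ∈ S i`, up to a proportion of
`1 / log ^ U N` of them, have the following property: the integers `a i = c i + γ i r i`, where `0 ≤ r i < p i` and
`r i ≡ u i v i + ρ i (u i) + σ i (v i) mod p i`, satisfy `|∑ λ(F(n))| ≤ N / log ^ U N` for all `l` and all nonempty
sets `I` of indices, where `F = f l * ∏ i ∈ I, (α i T + a i)`, the sum over the `n ≡ r mod q` in an arbitrary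
interval `[u, v]` with `α i |u|, α i |v| ≤ B N` for all `i ∈ I`, for all residue classes `r` modulo all
`q ≤ log ^ κ N`. -/
theorem result (B C κ U : ℕ) (δ : ℝ) (hδ : 0 < δ) : ∃ N₀ : ℕ, ∀ N : ℕ, N₀ ≤ N →
    ∀ s L : ℕ, (2 : ℝ) ^ s ≤ Real.log N ^ κ → (L : ℝ) ≤ Real.log N ^ κ →
    ∀ p : Fin s → ℕ, (∀ i, (p i).Prime ∧ (N : ℝ) ≤ p i * Real.log N ^ C) →
    ∀ (R S : ∀ i, Finset (ZMod (p i))) (ρ σ : ∀ i, ZMod (p i) → ZMod (p i)),
    (∀ i, (p i : ℝ) ^ (1 + δ) ≤ (R i).card * (S i).card) →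
    ∀ γ c : Fin s → ℤ, (∀ i, γ i ≠ 0 ∧ |c i| + |γ i| * p i ≤ B * N) →
    ∀ α : Fin s → ℕ, (∀ i, 1 ≤ α i) → ∀ f : Fin L → Polynomial ℤ,
      (exceptions B κ U N p R S ρ σ f α c γ : ℝ) ≤ (∏ i, ((R i).card * (S i).card : ℝ)) / Real.log N ^ U := by
  classical
  obtain ⟨N₀, hN₀⟩ := Pool.Agent.K7.H49.PR.cho B C κ U (δ / 2) (by positivity)
  refine ⟨N₀, fun N hN s L hs hL p hp R S ρ σ hRS γ c hγc α hα f => ?_⟩
  have h1 := hN₀ N hN s L hs hL (fun i => ZMod (p i) × ZMod (p i)) (fun i => R i ×ˢ S i)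
    (fun i => Pool.Agent.K7.H49.PR.res (ρ i) (σ i)) p (fun i => ⟨(hp i).1.one_lt.le, (hp i).2⟩)
    (fun i k hk1 hkp => by
      haveI : Fact (p i).Prime := ⟨(hp i).1⟩
      exact Pool.Agent.K7.H49.PR.bil_delta (R i) (S i) (ρ i) (σ i) (δ / 2) (by
        have e : 1 + 2 * (δ / 2) = 1 + δ := by ring
        rw [e]; exact hRS i) k hk1 hkp)
    γ c (fun i => (hγc i).1) (fun i a _ => by
      haveI : NeZero (p i) := ⟨(hp i).1.ne_zero⟩
      have h2 : Pool.Agent.K7.H49.PR.res (ρ i) (σ i) a ≤ p i := (ZMod.val_lt _).le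
      have h3 : ((Pool.Agent.K7.H49.PR.res (ρ i) (σ i) a : ℕ) : ℤ) ≤ p i := by exact_mod_cast h2
      have h4 : |γ i| * ((Pool.Agent.K7.H49.PR.res (ρ i) (σ i) a : ℕ) : ℤ) ≤ |γ i| * p i :=
        mul_le_mul_of_nonneg_left h3 (abs_nonneg _)
      have h5 := (hγc i).2
      calc |c i + γ i * (Pool.Agent.K7.H49.PR.res (ρ i) (σ i) a : ℕ)| ≤
          |c i| + |γ i * (Pool.Agent.K7.H49.PR.res (ρ i) (σ i) a : ℕ)| := abs_add_le _ _
        _ = |c i| + |γ i| * (Pool.Agent.K7.H49.PR.res (ρ i) (σ i) a : ℕ) := by rw [abs_mul, Nat.abs_cast]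
        _ ≤ B * N := by linarith) α hα f
  have h2 : ∀ i, (((R i ×ˢ S i).card : ℕ) : ℝ) = (R i).card * (S i).card := by
    intro i
    rw [card_product]
    push_cast
    ring
  simp only [h2] at h1
  refine le_trans ?_ h1
  rw [Nat.cast_le]
  unfold exceptions
  apply card_le_card
  intro v hv
  rw [mem_filter] at hv ⊢
  exact ⟨hv.1, fun hcon => hv.2 hcon⟩

end Pool.Agent.Results.MP_892e4c_nt.BilinearConstants
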