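import Pool.Agent.K7.H49.SM.Cho

/-!
# The Liouville function at the values of arbitrary polynomials times linear factors, the constant terms of which are
composed of given small primes

The passage from one linear factor to tuples and the estimate for families of nearly minimal additive energy are from
the library (`Pool.Agent.R501.CP4`). That the integers composed of given small primes are such a family is new.
From Mathlib: `ArithmeticFunction.cardFactors m`: the number of prime factors of `m` with multiplicity;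
`Finset.Icc u v`: the integers `n` with `u ≤ n ≤ v`; `n ≡ r [ZMOD q]`: congruence modulo `q`; `Polynomial ℤ`: the
polynomials with integer coefficients.
-/

set_option autoImplicit false

namespace Pool.Agent.Results.MP_892e4c_nt.ComposedConstants

open Finset

/-- The Liouville function on the integers, `λ(-m) = λ(m)` and `λ(0) = 0`. -/
def lam (m : ℤ) : ℤ := if m = 0 then 0 else (-1) ^ ArithmeticFunction.cardFactors m.natAbs

open Classical in
/-- The positive integers up to `X` all of whose prime factors belong to `P`. -/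
noncomputable def composed (P : Finset ℕ) (X : ℕ) : Finset ℕ :=
  (Icc 1 X).filter (fun l => ∀ p : ℕ, p.Prime → p ∣ l → p ∈ P)

/-- The sum of `λ(F(n))` over the integers `n` with `u ≤ n ≤ v` and `n ≡ r mod q`, where `F` is the product of the
polynomial `f` and of the polynomials `α i T + a i`, `i ∈ I`. -/
noncomputable def lamSum {s : ℕ} (f : Polynomial ℤ) (α : Fin s → ℕ) (a : Fin s → ℤ) (I : Finset (Fin s)) (q : ℕ)
    (r u v : ℤ) : ℤ :=
  ∑ n ∈ (Icc u v).filter (fun n => n ≡ r [ZMOD q]),
    lam ((f * ∏ i ∈ I, (Polynomial.C (α i : ℤ) * Polynomial.X + Polynomial.C (a i))).eval n)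

/-- All the sums are small: for all `l`, all nonempty sets `I` of indices, all residue classes `r` modulo
`q ≤ log ^ κ N` and all integers `u`, `v` with `α i |u| ≤ B N` and `α i |v| ≤ B N` for all `i ∈ I`, the sum of `λ(F(n))`
over the `n` with `u ≤ n ≤ v` and `n ≡ r mod q` is at most `N / log ^ U N` in absolute value, where
`F = f l * ∏ i ∈ I, (α i T + a i)`. -/
def Small (B κ U N : ℕ) {s L : ℕ} (f : Fin L → Polynomial ℤ) (α : Fin s → ℕ) (a : Fin s → ℤ) : Prop :=
  ∀ l, ∀ I : Finset (Fin s), I.Nonempty → ∀ q : ℕ, 1 ≤ q → (q : ℝ) ≤ Real.log N ^ κ → ∀ r u v : ℤ,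
    (∀ i ∈ I, (α i : ℤ) * |u| ≤ B * N ∧ (α i : ℤ) * |v| ≤ B * N) →
    |((lamSum (f l) α a I q r u v : ℤ) : ℝ)| ≤ N / Real.log N ^ U

open Classical in
/-- The number of the vectors `v`, `v i ≤ X` composed of primes of `P i`, for which `Small` fails for the constant
terms `a i = c i + γ i * v i`. -/
noncomputable def exceptions (B κ U N X : ℕ) {s L : ℕ} (P : Fin s → Finset ℕ) (f : Fin L → Polynomial ℤ)
    (α : Fin s → ℕ) (c γ : Fin s → ℤ) : ℕ :=
  ((Fintype.piFinset fun i => composed (P i) X).filter fun v =>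
    ¬ Small B κ U N f α (fun i => c i + γ i * v i)).card

lemma composed_eq (P : Finset ℕ) (X : ℕ) : composed P X = Pool.Agent.K7.H49.SM.S P X := by
  classical
  ext l
  rw [Pool.Agent.K7.H49.SM.mem_S]
  unfold composed
  rw [mem_filter, mem_Icc]
  constructor
  · rintro ⟨⟨h1, h2⟩, h3⟩
    refine ⟨h1, h2, fun p hp => ?_⟩
    exact h3 p (Nat.prime_of_mem_primeFactors hp) (Nat.dvd_of_mem_primeFactors hp)
  · rintro ⟨h1, h2, h3⟩
    refine ⟨⟨h1, h2⟩, fun p hp hpl => ?_⟩
    exact h3 (Nat.mem_primeFactors.2 ⟨hp, hpl, by omega⟩)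

/-- Let `B`, `C`, `κ`, `U` be natural numbers and `δ > 0`. The following holds for every sufficiently large `X` and all
`N` with `X ≤ N ≤ X (log X) ^ C`. Let `2 ^ s ≤ log ^ κ N`. For `i < s` let `2 ≤ y i ≤ (log X) ^ C`, let `P i` be ANY
set of at least `(y i) ^ (1 / 2 + δ) log X` primes up to `y i` (for `C` large enough for instance all the primes up to
`(log X) ^ K`, where `K > 2`), and let `γ i ≠ 0`, `c i` be integers with `|c i| + |γ i| X ≤ B N`. Let `α i ≥ 1` be
arbitrary integers, and let `f l`, where `l` ranges over at most `log ^ κ N` indices, be arbitrary polynomials with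
integer coefficients (of any degree). Then all the vectors `v`, `v i ≤ X` composed of primes of `P i`, up to a
proportion of `1 / log ^ U N` of them, have the following property: the integers `a i = c i + γ i v i` satisfy
`|∑ λ(F(n))| ≤ N / log ^ U N` for all `l` and all nonempty sets `I` of indices, where `F = f l * ∏ i ∈ I, (α i T + a i)`,
the sum over the `n ≡ r mod q` in an arbitrary interval `[u, v]` with `α i |u|, α i |v| ≤ B N` for all `i ∈ I`, for all
residue classes `r` modulo all `q ≤ log ^ κ N`. -/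
theorem result (B C κ U : ℕ) (δ : ℝ) (hδ : 0 < δ) : ∃ X₀ : ℕ, ∀ X : ℕ, X₀ ≤ X →
    ∀ N : ℕ, X ≤ N → (N : ℝ) ≤ X * Real.log X ^ C →
    ∀ s L : ℕ, (2 : ℝ) ^ s ≤ Real.log N ^ κ → (L : ℝ) ≤ Real.log N ^ κ →
    ∀ y : Fin s → ℕ, (∀ i, 2 ≤ y i ∧ (y i : ℝ) ≤ Real.log X ^ C) →
    ∀ P : Fin s → Finset ℕ, (∀ i, ∀ p ∈ P i, p.Prime ∧ p ≤ y i) →
    (∀ i, (y i : ℝ) ^ (1 / 2 + δ) * Real.log X ≤ (P i).card) →
    ∀ γ c : Fin s → ℤ, (∀ i, γ i ≠ 0 ∧ |c i| + |γ i| * X ≤ B * N) →
    ∀ α : Fin s → ℕ, (∀ i, 1 ≤ α i) → ∀ f : Fin L → Polynomial ℤ,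
      (exceptions B κ U N X P f α c γ : ℝ) ≤ (∏ i, ((composed (P i) X).card : ℝ)) / Real.log N ^ U := by
  classical
  obtain ⟨X₀, hX₀⟩ := Pool.Agent.K7.H49.SM.cho B C κ U δ hδ
  refine ⟨X₀, fun X hX N hXN hNX s L hs hL y hy P hP hc γ c hγc α hα f => ?_⟩
  have h1 := hX₀ X hX N hXN hNX s L hs hL y hy P hP hc γ c hγc α hα f
  rw [Pool.Agent.R459.Fams.count_eq] at h1
  simp only [composed_eq]
  refine le_trans ?_ h1
  rw [Nat.cast_le]
  unfold exceptions
  simp only [composed_eq]
  apply card_le_card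
  intro v hv
  rw [mem_filter] at hv ⊢
  exact ⟨hv.1, fun hcon => hv.2 hcon⟩

end Pool.Agent.Results.MP_892e4c_nt.ComposedConstants
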