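import Pool.Agent.K7.H49.SM.Cho
import Pool.Agent.K7.H49.CX.Box

/-!
# The Liouville function at the values of arbitrary polynomials times linear factors, the constant terms of which are
members of sequences near convex or concave functions

The passage from one linear factor to tuples and the estimate for families of nearly minimal additive energy are from
the library (`Pool.Agent.R501.CP4`). That the sequences near convex functions (up to two pieces of them) are such
families is new. From Mathlib: `ArithmeticFunction.cardFactors m`: the number of prime factors of `m` with multiplicity;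
`Finset.Icc u v`: the integers `n` with `u ≤ n ≤ v`; `n ≡ r [ZMOD q]`: congruence modulo `q`; `Polynomial ℤ`: the
polynomials with integer coefficients.
-/

set_option autoImplicit false

namespace Pool.Agent.Results.MP_892e4c_nt.ConvexConstants

open Finset

/-- The Liouville function on the integers, `λ(-m) = λ(m)` and `λ(0) = 0`. -/
def lam (m : ℤ) : ℤ := if m = 0 then 0 else (-1) ^ ArithmeticFunction.cardFactors m.natAbs

/-- The integers `t 1, ..., t x` differ by at most `W` from the values of some real function `g` on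
`{1, ..., x}` whose second differences are all at least `lam`, or all at most `-lam`. -/
def NearConvex (x : ℕ) (t : ℕ → ℤ) (W lam : ℝ) : Prop :=
  ∃ g : ℕ → ℝ, (∀ m, 1 ≤ m → m ≤ x → |(t m : ℝ) - g m| ≤ W) ∧
    ((∀ m, 1 ≤ m → m + 2 ≤ x → lam ≤ g (m + 2) - 2 * g (m + 1) + g m) ∨
      (∀ m, 1 ≤ m → m + 2 ≤ x → g (m + 2) - 2 * g (m + 1) + g m ≤ -lam))

/-- The sum of `λ(F(n))` over the integers `n` with `u ≤ n ≤ v` and `n ≡ r mod q`, where `F` is the product of the
polynomial `f` and of the polynomials `α i T + a i`, `i ∈ I`. -/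
noncomputable def lamSum {s : ℕ} (f : Polynomial ℤ) (α : Fin s → ℕ) (a : Fin s → ℤ) (I : Finset (Fin s)) (q : ℕ)
    (r u v : ℤ) : ℤ :=
  ∑ n ∈ (Icc u v).filter (fun n => n ≡ r [ZMOD q]),
    lam ((f * ∏ i ∈ I, (Polynomial.C (α i : ℤ) * Polynomial.X + Polynomial.C (a i))).eval n)

/-- All the sums are small: for all `l`, all nonempty sets `I` of indices, all residue classes `r` modulo
`q ≤ log ^ κ N` and all integers `u`, `v` with `α i |u| ≤ B N` and `α i |v| ≤ B N` for all `i ∈ I`, the sum of `λ(F(n))`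
over the `n` with `u ≤ n ≤ v` and `n ≡ r mod q` is at most `N / log ^ U N` in absolute value, where
`F = f l * ∏ i ∈ I, (α i T + a i)`. -/
def Small (B κ U N : ℕ) {s L : ℕ} (f : Fin L → Polynomial ℤ) (α : Fin s → ℕ) (a : Fin s → ℤ) : Prop :=
  ∀ l, ∀ I : Finset (Fin s), I.Nonempty → ∀ q : ℕ, 1 ≤ q → (q : ℝ) ≤ Real.log N ^ κ → ∀ r u v : ℤ,
    (∀ i ∈ I, (α i : ℤ) * |u| ≤ B * N ∧ (α i : ℤ) * |v| ≤ B * N) →
    |((lamSum (f l) α a I q r u v : ℤ) : ℝ)| ≤ N / Real.log N ^ U

open Classical in
/-- The number of the vectors `m`, `1 ≤ m i ≤ x i`, for which `Small` fails for the constant terms `a i = t i (m i)`. -/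
noncomputable def exceptions (B κ U N : ℕ) {s L : ℕ} (x : Fin s → ℕ) (t : Fin s → ℕ → ℤ) (f : Fin L → Polynomial ℤ)
    (α : Fin s → ℕ) : ℕ :=
  ((Fintype.piFinset fun i => Icc 1 (x i)).filter fun m : Fin s → ℕ => ¬ Small B κ U N f α (fun i => t i (m i))).card

/-- Let `B`, `C`, `κ`, `U` be natural numbers and `η > 0`. The following holds for every sufficiently large `N`. Let
`2 ^ s ≤ log ^ κ N`. For `i < s` let `N ^ (1 / 2 + η) ≤ x i ≤ N`, and let `t i 1, ..., t i (x i)` be ANY integers of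
absolute value at most `B N` that differ by at most `(log N) ^ C` from the values of some real function whose second
differences are all at least `N / ((x i)² (log N) ^ C)`, or all at most `-N / ((x i)² (log N) ^ C)`. Let `α i ≥ 1` be
arbitrary integers, and let `f l`, where `l` ranges over at most `log ^ κ N` indices, be arbitrary polynomials with
integer coefficients (of any degree). Then all the vectors `m`, `1 ≤ m i ≤ x i`, up to a proportion of
`1 / log ^ U N` of them, have the following property: the integers `a i = t i (m i)` satisfy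
`|∑ λ(F(n))| ≤ N / log ^ U N` for all `l` and all nonempty sets `I` of indices, where `F = f l * ∏ i ∈ I, (α i T + a i)`,
the sum over the `n ≡ r mod q` in an arbitrary interval `[u, v]` with `α i |u|, α i |v| ≤ B N` for all `i ∈ I`, for all
residue classes `r` modulo all `q ≤ log ^ κ N`. -/
theorem result (B C κ U : ℕ) (η : ℝ) (hη : 0 < η) : ∃ N₀ : ℕ, ∀ N : ℕ, N₀ ≤ N →
    ∀ s L : ℕ, (2 : ℝ) ^ s ≤ Real.log N ^ κ → (L : ℝ) ≤ Real.log N ^ κ →
    ∀ x : Fin s → ℕ, (∀ i, (N : ℝ) ^ (1 / 2 + η) ≤ x i ∧ x i ≤ N) →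
    ∀ t : Fin s → ℕ → ℤ, (∀ i, ∀ m, 1 ≤ m → m ≤ x i → |t i m| ≤ B * N) →
    (∀ i, NearConvex (x i) (t i) (Real.log N ^ C) (N / ((x i : ℝ) ^ 2 * Real.log N ^ C))) →
    ∀ α : Fin s → ℕ, (∀ i, 1 ≤ α i) → ∀ f : Fin L → Polynomial ℤ,
      (exceptions B κ U N x t f α : ℝ) ≤ (∏ i, (x i : ℝ)) / Real.log N ^ U := by
  classical
  obtain ⟨h, D, n1, hh, hconv⟩ := Pool.Agent.K7.H49.CX.conv_box C (U + κ + 1) η hη
  obtain ⟨n2, hfam⟩ := Pool.Agent.K7.H49.SM.cho_fam B (D + (U + κ + 1) * (2 * h)) κ (U + κ + 1) h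
  obtain ⟨n3, hn3⟩ := Pool.Agent.K7.H49.SM.ev_log 2
  refine ⟨max n1 (max n2 n3), fun N hN s M hs hM x hx t ht hg α hα f => ?_⟩
  have hL2 := hn3 N (le_trans (le_trans (le_max_right _ _) (le_max_right _ _)) hN)
  choose g hg1 hg2 using hg
  have habs : ∀ i, ∀ m ∈ Icc 1 (x i), (((t i m + B * N).toNat : ℕ) : ℤ) = t i m + B * N := by
    intro i m hm
    have h1 := ht i m (mem_Icc.1 hm).1 (mem_Icc.1 hm).2
    have h2 := (abs_le.1 h1).1
    exact Int.toNat_of_nonneg (by linarith)
  have h1 := hconv N (le_trans (le_max_left _ _) hN) s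
    (fun a => ¬ Pool.Agent.K7.H49.SM.Small B κ (U + κ + 1) N f α (fun i => (fun _ => -((B : ℤ) * N)) i + (fun _ => (1 : ℤ)) i * a i))
    (fun _ b => |-((B : ℤ) * N) + 1 * b| ≤ B * N)
    (fun x s' hs' hE => by
      have h2 := hfam N (le_trans (le_trans (le_max_left _ _) (le_max_right _ _)) hN) s M hs hM x s'
        (fun _ => 1) (fun _ => -((B : ℤ) * N)) (fun _ => one_ne_zero) hs' hE α hα f
      rw [Pool.Agent.R459.Fams.count_eq] at h2
      refine le_trans (le_of_eq ?_) h2
      congr 2)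
    x hx (fun i m => g i m + B * N) (fun i m => (t i m + B * N).toNat)
    (fun i => ⟨fun m hm => by
      have h2 := hg1 i m (mem_Icc.1 hm).1 (mem_Icc.1 hm).2
      have h3 : (((t i m + B * N).toNat : ℕ) : ℝ) = t i m + B * N := by exact_mod_cast habs i m hm
      rw [h3]
      have e : (t i m : ℝ) + B * N - (g i m + B * N) = t i m - g i m := by ring
      rw [e]
      exact h2, by
      rcases hg2 i with h2 | h2
      · left
        intro m hm1 hm2
        have := h2 m hm1 hm2
        linarith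
      · right
        intro m hm1 hm2
        have := h2 m hm1 hm2
        linarith⟩)
    (fun i m hm => by
      rw [habs i m hm]
      have h2 := ht i m (mem_Icc.1 hm).1 (mem_Icc.1 hm).2
      have e : -((B : ℤ) * N) + 1 * (t i m + B * N) = t i m := by ring
      rw [e]
      exact h2)
  obtain ⟨L, hLd⟩ : ∃ L, L = Real.log (N : ℝ) := ⟨_, rfl⟩
  rw [← hLd] at hL2 hs
  have hL1 : 1 ≤ L := by linarith
  have hL0 : 0 < L := by linarith
  have h3 : exceptions B κ U N x t f α ≤ ((Fintype.piFinset (fun i => Icc 1 (x i))).filter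
      (fun m : Fin s → ℕ => ¬ Pool.Agent.K7.H49.SM.Small B κ (U + κ + 1) N f α
        (fun i => (fun _ => -((B : ℤ) * N)) i + (fun _ => (1 : ℤ)) i * ((t i (m i) + B * N).toNat : ℕ)))).card := by
    unfold exceptions
    apply card_le_card
    intro m hm
    rw [mem_filter] at hm ⊢
    refine ⟨hm.1, fun hcon => hm.2 ?_⟩
    intro l I hI q hq1 hq2 r u v huv
    have h4 := hcon l I hI q hq1 hq2 r u v huv
    have e1 : (fun i => (fun _ => -((B : ℤ) * N)) i + (fun _ => (1 : ℤ)) i * ((t i (m i) + B * N).toNat : ℕ)) =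
        fun i => t i (m i) := by
      funext i
      rw [habs i (m i) (Fintype.mem_piFinset.1 hm.1 i)]
      ring
    rw [e1] at h4
    refine le_trans ?_ (h4.trans ?_)
    · exact le_of_eq rfl
    · rw [← hLd]
      exact div_le_div_of_nonneg_left (Nat.cast_nonneg _) (by positivity) (pow_le_pow_right₀ hL1 (by omega))
  have h4 : (exceptions B κ U N x t f α : ℝ) ≤ (2 ^ s + s) * ((∏ i, (x i : ℝ)) / Real.log N ^ (U + κ + 1)) := by
    refine le_trans (Nat.cast_le.2 h3) (le_of_eq_of_le ?_ h1)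
    congr 3
  refine h4.trans ?_
  rw [← hLd]
  have hP0 : 0 ≤ ∏ i, (x i : ℝ) := prod_nonneg fun _ _ => Nat.cast_nonneg _
  have e : ((2 : ℝ) ^ s + s) * ((∏ i, (x i : ℝ)) / L ^ (U + κ + 1)) =
      ((2 ^ s + s) / (L * L ^ κ)) * ((∏ i, (x i : ℝ)) / L ^ U) := by
    rw [pow_succ, pow_add]
    field_simp
  rw [e]
  have hss : (s : ℝ) ≤ 2 ^ s := by exact_mod_cast Nat.lt_two_pow_self.le
  have h5 : ((2 : ℝ) ^ s + s) / (L * L ^ κ) ≤ 1 := by
    rw [div_le_one (by positivity)]
    calc (2 : ℝ) ^ s + s ≤ 2 * 2 ^ s := by linarith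
      _ ≤ L * L ^ κ := by gcongr
  exact mul_le_of_le_one_left (by positivity) h5

end Pool.Agent.Results.MP_892e4c_nt.ConvexConstants
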