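import Pool.Agent.K7.H49.PR.Cho
import Pool.Agent.K7.H67.BG.Fam

/-!
# The Liouville function at the values of arbitrary polynomials times linear factors, the constant terms of which are
given modulo primes by short geometric progressions or by multilinear forms on arbitrary sets of residues

The families may be as thin as `p ^ δ` for every `δ > 0` (a subgroup of this order of the multiplicative group modulo
`p`, or that many consecutive outputs of a linear congruential generator). The exponential sums over them have a power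
saving (theorems of the type of Bourgain, Glibichuk and Konyagin, proved in `Pool.Agent.K7.H67.BG` from the flattening
theorem `Pool.Agent.Y881.SP.flat` of the starting files); so their additive energy of some order is minimal up to a
constant factor. The passage from one linear factor to tuples and the estimate for families of nearly minimal additive
energy are from the library (`Pool.Agent.R501.CP4`, in the form given to it by helper49 in `Pool.Agent.K7.H49.PR.Cho`).

From Mathlib: `ArithmeticFunction.cardFactors m`: the number of prime factors of `m` with multiplicity;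
`Finset.Icc u v`: the integers `n` with `u ≤ n ≤ v`; `n ≡ r [ZMOD q]`: congruence modulo `q`; `Polynomial ℤ`: the
polynomials with integer coefficients; `ZMod p`: the residues modulo `p`; `z.val`: the representative of `z` in
`{0, ..., p - 1}`; `(ZMod p)ˣ`: the nonzero residues; `orderOf g`: the order of `g` in this group;
`Fintype.piFinset A`: the product of the sets `A i`.
-/

set_option autoImplicit false

namespace Pool.Agent.Results.MP_892e4c_nt.MultilinearConstants

open Finset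

/-- The Liouville function on the integers, `λ(-m) = λ(m)` and `λ(0) = 0`. -/
def lam (m : ℤ) : ℤ := if m = 0 then 0 else (-1) ^ ArithmeticFunction.cardFactors m.natAbs

/-- The sum of `λ(F(n))` over the integers `n` with `u ≤ n ≤ v` and `n ≡ r mod q`, where `F` is the product of the
polynomial `f` and of the polynomials `α i T + a i`, `i ∈ I`. -/
noncomputable def lamSum {s : ℕ} (f : Polynomial ℤ) (α : Fin s → ℕ) (a : Fin s → ℤ) (I : Finset (Fin s)) (q : ℕ)
    (r u v : ℤ) : ℤ :=
  ∑ n ∈ (Icc u v).filter (fun n => n ≡ r [ZMOD q]),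
    lam ((f * ∏ i ∈ I, (Polynomial.C (α i : ℤ) * Polynomial.X + Polynomial.C (a i))).eval n)

/-- All the sums are small: for all `l`, all nonempty sets `I` of indices, all residue classes `r` modulo
`q ≤ log ^ κ N` and all integers `u`, `v` with `α i |u| ≤ B N` and `α i |v| ≤ B N` for all `i ∈ I`, the sum of `λ(F(n))`
over the `n` with `u ≤ n ≤ v` and `n ≡ r mod q` is at most `N / log ^ U N` in absolute value, where
`F = f l * ∏ i ∈ I, (α i T + a i)`. -/
def Small (B κ U N : ℕ) {s L : ℕ} (f : Fin L → Polynomial ℤ) (α : Fin s → ℕ) (a : Fin s → ℤ) : Prop :=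
  ∀ l, ∀ I : Finset (Fin s), I.Nonempty → ∀ q : ℕ, 1 ≤ q → (q : ℝ) ≤ Real.log N ^ κ → ∀ r u v : ℤ,
    (∀ i ∈ I, (α i : ℤ) * |u| ≤ B * N ∧ (α i : ℤ) * |v| ≤ B * N) →
    |((lamSum (f l) α a I q r u v : ℤ) : ℝ)| ≤ N / Real.log N ^ U

open Classical in
/-- The number of the vectors of exponents `m i`, `1 ≤ m i ≤ x i`, for which `Small` fails for the constant terms
`a i = c i + γ i * r i`, where `r i` is the residue of `b i * u i ^ m i + t i` modulo `p i` in `{0, ..., p i - 1}`. -/
noncomputable def powerExceptions (B κ U N : ℕ) {s L : ℕ} (p : Fin s → ℕ) (b t : ∀ i, ZMod (p i))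
    (u : ∀ i, (ZMod (p i))ˣ) (x : Fin s → ℕ) (f : Fin L → Polynomial ℤ) (α : Fin s → ℕ) (c γ : Fin s → ℤ) : ℕ :=
  ((Fintype.piFinset fun i => Icc 1 (x i)).filter fun m =>
    ¬ Small B κ U N f α
      (fun i => c i + γ i * ((b i * ((u i ^ m i : (ZMod (p i))ˣ) : ZMod (p i)) + t i).val : ℕ))).card

open Classical in
/-- The number of the families of vectors `w i`, `w i j ∈ R i j` for all `i < s` and `j < k`, for which `Small` fails
for the constant terms `a i = c i + γ i * r i`, where `r i` is the residue of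
`∏ j, w i j + ∑ j, g i j (w i)` modulo `p i` in `{0, ..., p i - 1}`. -/
noncomputable def vectorExceptions (B κ U N : ℕ) {s L k : ℕ} (p : Fin s → ℕ) (R : ∀ i, Fin k → Finset (ZMod (p i)))
    (g : ∀ i, Fin k → (Fin k → ZMod (p i)) → ZMod (p i)) (f : Fin L → Polynomial ℤ) (α : Fin s → ℕ)
    (c γ : Fin s → ℤ) : ℕ :=
  ((Fintype.piFinset fun i => Fintype.piFinset (R i)).filter fun w =>
    ¬ Small B κ U N f α (fun i => c i + γ i * ((∏ j, w i j + ∑ j, g i j (w i)).val : ℕ))).card

lemma ev_pow (C : ℕ) (K : ℝ) : ∃ N₀ : ℕ, ∀ N : ℕ, N₀ ≤ N → K * Real.log N ^ C ≤ N := by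
  have h := (Real.isLittleO_pow_log_id_atTop (n := C)).bound (c := 1 / (|K| + 1)) (by positivity)
  obtain ⟨x₀, hx₀⟩ := Filter.eventually_atTop.1 h
  refine ⟨max ⌈x₀⌉₊ 1, fun N hN => ?_⟩
  have hN1 : x₀ ≤ (N : ℝ) := (Nat.le_ceil _).trans (by exact_mod_cast le_trans (le_max_left _ _) hN)
  have hN2 : (1 : ℝ) ≤ N := by exact_mod_cast le_trans (le_max_right _ _) hN
  have h1 := hx₀ N hN1
  have hl : 0 ≤ Real.log N := Real.log_nonneg hN2
  rw [id, Real.norm_of_nonneg (by positivity), Real.norm_of_nonneg (by positivity)] at h1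
  have h2 : (|K| + 1) * Real.log N ^ C ≤ N := by
    calc (|K| + 1) * Real.log N ^ C ≤ (|K| + 1) * (1 / (|K| + 1) * N) := by gcongr
      _ = N := by field_simp
  calc K * Real.log N ^ C ≤ (|K| + 1) * Real.log N ^ C := by
        apply mul_le_mul_of_nonneg_right _ (by positivity)
        linarith [le_abs_self K]
    _ ≤ N := h2

lemma bound_of {p : ℕ} (B N : ℕ) (r : ℕ) (hr : r ≤ p) (γ c : ℤ) (h : |c| + |γ| * p ≤ B * N) :
    |c + γ * (r : ℕ)| ≤ B * N := by
  have h3 : (r : ℤ) ≤ p := by exact_mod_cast hr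
  have h4 : |γ| * (r : ℤ) ≤ |γ| * p := mul_le_mul_of_nonneg_left h3 (abs_nonneg _)
  calc |c + γ * (r : ℕ)| ≤ |c| + |γ * (r : ℕ)| := abs_add_le _ _
    _ = |c| + |γ| * (r : ℕ) := by rw [abs_mul, Nat.abs_cast]
    _ ≤ B * N := by linarith

lemma big_of (N C p p₀ : ℕ) (hN1 : 1 < Real.log N) (hN : (p₀ : ℝ) * Real.log N ^ C ≤ N)
    (hp : (N : ℝ) ≤ p * Real.log N ^ C) : p₀ ≤ p := by
  have h0 : (0 : ℝ) < Real.log N ^ C := pow_pos (by linarith) _
  have h1 : (p₀ : ℝ) * Real.log N ^ C ≤ p * Real.log N ^ C := hN.trans hp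
  exact_mod_cast le_of_mul_le_mul_right h1 h0

/-- Let `B`, `C`, `κ`, `U` be natural numbers and `δ > 0`. Let `N` be sufficiently large and `2 ^ s ≤ log ^ κ N`. For
`i < s` let `p i` be a prime with `p i ≥ N / (log N) ^ C`, let `γ i ≠ 0`, `c i` be integers with
`|c i| + |γ i| p i ≤ B N` and let `α i ≥ 1` be arbitrary integers. Let `f l`, where `l` ranges over at most
`log ^ κ N` indices, be arbitrary polynomials with integer coefficients (of any degree).

(1) For `i < s` let `b i`, `u i` be residues prime to `p i`, let `t i` be any residue modulo `p i`, and let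
`x i ≥ (p i) ^ δ` be at most the order of `u i` modulo `p i`. Then all the vectors of exponents `m i`,
`1 ≤ m i ≤ x i`, up to a proportion of `1 / log ^ U N` of them, have the following property: the integers
`a i = c i + γ i r i`, where `0 ≤ r i < p i` and `r i ≡ b i (u i) ^ (m i) + t i mod p i`, satisfy
`|∑ λ(F(n))| ≤ N / log ^ U N` for all `l` and all nonempty sets `I` of indices, where
`F = f l * ∏ i ∈ I, (α i T + a i)`, the sum over the `n ≡ r mod q` in an arbitrary interval `[u, v]` with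
`α i |u|, α i |v| ≤ B N` for all `i ∈ I`, for all residue classes `r` modulo all `q ≤ log ^ κ N`.

(2) For every `k ≥ k₀(δ)` the same holds (for every large `N`, in terms of `k`) for the numbers `r i`, where
`0 ≤ r i < p i` and `r i ≡ w_1 w_2 ... w_k + g i 1 (w) + ... + g i k (w) mod p i`, for all families of vectors
`w = w i` with `w_j ∈ R i j` up to a proportion of `1 / log ^ U N` of them, where the `R i j` are ANY sets of at least
`(p i) ^ δ` residues modulo `p i` and the `g i j` are ANY functions of `k` residues modulo `p i` such that `g i j`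
does not depend on the `j`-th variable. -/
theorem result (B C κ U : ℕ) (δ : ℝ) (hδ : 0 < δ) :
    (∃ N₀ : ℕ, ∀ N : ℕ, N₀ ≤ N →
      ∀ s L : ℕ, (2 : ℝ) ^ s ≤ Real.log N ^ κ → (L : ℝ) ≤ Real.log N ^ κ →
      ∀ p : Fin s → ℕ, (∀ i, (p i).Prime ∧ (N : ℝ) ≤ p i * Real.log N ^ C) →
      ∀ (b t : ∀ i, ZMod (p i)) (u : ∀ i, (ZMod (p i))ˣ) (x : Fin s → ℕ),
      (∀ i, b i ≠ 0 ∧ (p i : ℝ) ^ δ ≤ x i ∧ x i ≤ orderOf (u i)) →
      ∀ γ c : Fin s → ℤ, (∀ i, γ i ≠ 0 ∧ |c i| + |γ i| * p i ≤ B * N) →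
      ∀ α : Fin s → ℕ, (∀ i, 1 ≤ α i) → ∀ f : Fin L → Polynomial ℤ,
        (powerExceptions B κ U N p b t u x f α c γ : ℝ) ≤ (∏ i, (x i : ℝ)) / Real.log N ^ U) ∧
    (∃ k₀ : ℕ, ∀ k : ℕ, k₀ ≤ k → ∃ N₀ : ℕ, ∀ N : ℕ, N₀ ≤ N →
      ∀ s L : ℕ, (2 : ℝ) ^ s ≤ Real.log N ^ κ → (L : ℝ) ≤ Real.log N ^ κ →
      ∀ p : Fin s → ℕ, (∀ i, (p i).Prime ∧ (N : ℝ) ≤ p i * Real.log N ^ C) →
      ∀ R : ∀ i, Fin k → Finset (ZMod (p i)), (∀ i j, (p i : ℝ) ^ δ ≤ (R i j).card) →
      ∀ g : ∀ i, Fin k → (Fin k → ZMod (p i)) → ZMod (p i),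
      (∀ (i : Fin s) (j : Fin k) (v w : Fin k → ZMod (p i)), (∀ l, l ≠ j → v l = w l) → g i j v = g i j w) →
      ∀ γ c : Fin s → ℤ, (∀ i, γ i ≠ 0 ∧ |c i| + |γ i| * p i ≤ B * N) →
      ∀ α : Fin s → ℕ, (∀ i, 1 ≤ α i) → ∀ f : Fin L → Polynomial ℤ,
        (vectorExceptions B κ U N p R g f α c γ : ℝ) ≤ (∏ i, ∏ j, ((R i j).card : ℝ)) / Real.log N ^ U) := by
  classical
  constructor
  · obtain ⟨η, hη, p₀, hsup⟩ := Pool.Agent.K7.H67.BG.pw_sup δ hδ
    obtain ⟨N₁, h1⟩ := Pool.Agent.K7.H49.PR.cho B C κ U η hη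
    obtain ⟨N₂, h2⟩ := ev_pow C p₀
    obtain ⟨N₃, h3⟩ := ev_pow 0 (Real.exp 2)
    refine ⟨max N₁ (max N₂ N₃), fun N hN s L hs hL p hp b t u x hx γ c hγc α hα f => ?_⟩
    have hL1 : 1 < Real.log (N : ℝ) := by
      have h4 := h3 N (le_trans (le_trans (le_max_right _ _) (le_max_right _ _)) hN)
      rw [pow_zero, mul_one] at h4
      have h5 := Real.log_le_log (Real.exp_pos _) h4
      rw [Real.log_exp] at h5
      linarith
    have hbig : ∀ i, p₀ ≤ p i := fun i =>
      big_of N C (p i) p₀ hL1 (h2 N (le_trans (le_trans (le_max_left _ _) (le_max_right _ _)) hN)) (hp i).2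
    have h4 := h1 N (le_trans (le_max_left _ _) hN) s L hs hL (fun _ => ℕ) (fun i => Icc 1 (x i))
      (fun i => Pool.Agent.K7.H67.BG.pres (b i) (t i) (u i)) p (fun i => ⟨(hp i).1.one_lt.le, (hp i).2⟩)
      (fun i k hk1 hkp => hsup (p i) (hbig i) (hp i).1 (b i) (t i) (u i) (x i) (hx i).1 (hx i).2.1 (hx i).2.2 k hk1 hkp)
      γ c (fun i => (hγc i).1) (fun i a _ => by
        have : NeZero (p i) := ⟨(hp i).1.ne_zero⟩
        exact bound_of B N _ (Pool.Agent.K7.H67.BG.pres_le (b i) (t i) (u i) a) (γ i) (c i) (hγc i).2) α hα f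
    have h5 : ∀ i, (((Icc 1 (x i)).card : ℕ) : ℝ) = x i := by
      intro i
      rw [Nat.card_Icc, Nat.add_sub_cancel]
    simp only [h5] at h4
    refine le_trans ?_ h4
    rw [Nat.cast_le]
    unfold powerExceptions
    apply card_le_card
    intro v hv
    rw [mem_filter] at hv ⊢
    exact ⟨hv.1, fun hcon => hv.2 hcon⟩
  · obtain ⟨k₀, hk₀⟩ := Pool.Agent.K7.H67.BG.vec_sup δ hδ
    refine ⟨k₀, fun k hk => ?_⟩
    obtain ⟨η, hη, p₀, hsup⟩ := hk₀ k hk
    obtain ⟨N₁, h1⟩ := Pool.Agent.K7.H49.PR.cho B C κ U η hη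
    obtain ⟨N₂, h2⟩ := ev_pow C p₀
    obtain ⟨N₃, h3⟩ := ev_pow 0 (Real.exp 2)
    refine ⟨max N₁ (max N₂ N₃), fun N hN s L hs hL p hp R hR g hg γ c hγc α hα f => ?_⟩
    have hL1 : 1 < Real.log (N : ℝ) := by
      have h4 := h3 N (le_trans (le_trans (le_max_right _ _) (le_max_right _ _)) hN)
      rw [pow_zero, mul_one] at h4
      have h5 := Real.log_le_log (Real.exp_pos _) h4
      rw [Real.log_exp] at h5
      linarith
    have hbig : ∀ i, p₀ ≤ p i := fun i =>
      big_of N C (p i) p₀ hL1 (h2 N (le_trans (le_trans (le_max_left _ _) (le_max_right _ _)) hN)) (hp i).2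
    have h4 := h1 N (le_trans (le_max_left _ _) hN) s L hs hL (fun i => Fin k → ZMod (p i))
      (fun i => Fintype.piFinset (R i))
      (fun i => Pool.Agent.K7.H67.BG.vres (g i)) p (fun i => ⟨(hp i).1.one_lt.le, (hp i).2⟩)
      (fun i l hl1 hlp => hsup (p i) (hbig i) (hp i).1 (R i) (hR i) (g i) (hg i) l hl1 hlp)
      γ c (fun i => (hγc i).1) (fun i a _ => by
        have : NeZero (p i) := ⟨(hp i).1.ne_zero⟩
        exact bound_of B N _ (Pool.Agent.K7.H67.BG.vres_le (g i) a) (γ i) (c i) (hγc i).2) α hα f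
    have h5 : ∀ i, (((Fintype.piFinset (R i)).card : ℕ) : ℝ) = ∏ j, ((R i j).card : ℝ) := by
      intro i
      rw [Fintype.card_piFinset]
      push_cast
      rfl
    simp only [h5] at h4
    refine le_trans ?_ h4
    rw [Nat.cast_le]
    unfold vectorExceptions
    apply card_le_card
    intro v hv
    rw [mem_filter] at hv ⊢
    exact ⟨hv.1, fun hcon => hv.2 hcon⟩

end Pool.Agent.Results.MP_892e4c_nt.MultilinearConstants
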